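import Pool.Agent.W345.VO.Stm

/-! Project VO: the constants. -/

set_option autoImplicit false

namespace Pool.Agent.W605.VO

open MvPolynomial Pool.Agent.W345.VO

theorem phi_low (ε : ℂ) (j : ℕ) (q : Polynomial PP) (hq : q.natDegree ≤ j) :
    phi ε (-(j : ℤ)) q = q.coeff j := by
  conv_lhs => rw [q.as_sum_range' (j + 1) (by omega)]
  rw [map_sum, Finset.sum_range_succ]
  have h1 : ∑ x ∈ Finset.range j, phi ε (-(j : ℤ)) (Polynomial.monomial x (q.coeff x)) = 0 := by
    apply Finset.sum_eq_zero
    intro d hd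
    rw [Finset.mem_range] at hd
    rw [phi_monomial]
    have : sz ε ((d : ℤ) + -(j : ℤ)) = 0 := by
      unfold sz
      rw [if_neg (by omega)]
    rw [this, mul_zero]
  rw [h1, zero_add, phi_monomial]
  have : sz ε ((j : ℤ) + -(j : ℤ)) = 1 := by
    unfold sz
    rw [if_pos (by omega)]
    have h2 : ((j : ℤ) + -(j : ℤ)).toNat = 0 := by omega
    rw [h2, ss_zero]
  rw [this, mul_one]

theorem tau_ss (ε ε' : ℂ) (c : ℕ → ℂ) (h0 : c 0 = 1)
    (hc : ∀ j : ℕ, c (j + 1) = -2 * ε * ε' / ((j : ℂ) + 1) *
      ∑ i ∈ Finset.range (j + 1), c (j - i)) :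
    ∀ j : ℕ, (tau ε (ss ε' j)).natDegree ≤ j ∧ (tau ε (ss ε' j)).coeff j = C (c j) := by
  intro j
  induction j using Nat.strong_induction_on with
  | _ j ih =>
    rcases j with _ | j
    · rw [ss_zero, map_one, h0, C_1]
      simp
    · have hX : ∀ i : ℕ, tau ε (X i) =
          Polynomial.C (X i) - Polynomial.C (C (2 * ε)) * Polynomial.X ^ (i + 1) := by
        intro i
        unfold tau
        rw [aeval_X]
      have hCm : ∀ a : ℂ, tau ε (C a) = Polynomial.C (C a) := by
        intro a
        unfold tau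
        rw [algHom_C]
        rfl
      rw [ss_succ, map_mul, map_sum, hCm]
      have hterm : ∀ i ∈ Finset.range (j + 1),
          (tau ε (X i * ss ε' (j - i))).natDegree ≤ j + 1 ∧
          (tau ε (X i * ss ε' (j - i))).coeff (j + 1) = C (-(2 * ε) * c (j - i)) := by
        intro i hi
        rw [Finset.mem_range] at hi
        obtain ⟨d1, d2⟩ := ih (j - i) (by omega)
        rw [map_mul, hX, sub_mul, mul_assoc]
        have e1 : (Polynomial.C (X i) * tau ε (ss ε' (j - i))).natDegree ≤ j :=
          (Polynomial.natDegree_C_mul_le _ _).trans (d1.trans (by omega))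
        have e2 : (Polynomial.X ^ (i + 1) * tau ε (ss ε' (j - i))).natDegree ≤ j + 1 := by
          refine Polynomial.natDegree_mul_le.trans ?_
          rw [Polynomial.natDegree_X_pow]
          omega
        have e3 : (Polynomial.C (C (2 * ε)) * (Polynomial.X ^ (i + 1) *
            tau ε (ss ε' (j - i)))).natDegree ≤ j + 1 :=
          (Polynomial.natDegree_C_mul_le _ _).trans e2
        constructor
        · exact (Polynomial.natDegree_sub_le _ _).trans (max_le (e1.trans (by omega)) e3)
        · rw [Polynomial.coeff_sub, Polynomial.coeff_eq_zero_of_natDegree_lt (by omega),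
            Polynomial.coeff_C_mul, zero_sub]
          have e4 : j + 1 = (j - i) + (i + 1) := by omega
          rw [e4, Polynomial.coeff_X_pow_mul, d2]
          simp only [C_mul, C_neg]
          ring
      constructor
      · refine (Polynomial.natDegree_C_mul_le _ _).trans ?_
        exact Polynomial.natDegree_sum_le_of_forall_le _ _ (fun i hi => (hterm i hi).1)
      · rw [Polynomial.coeff_C_mul, Polynomial.finsetSum_coeff,
          Finset.sum_congr rfl (fun i hi => (hterm i hi).2), ← map_sum, ← C_mul, hc]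
        congr 1
        rw [← Finset.mul_sum]
        ring

theorem phi_tau (ε ε' : ℂ) (c : ℕ → ℂ) (h0 : c 0 = 1)
    (hc : ∀ j : ℕ, c (j + 1) = -2 * ε * ε' / ((j : ℂ) + 1) *
      ∑ i ∈ Finset.range (j + 1), c (j - i)) (j : ℤ) :
    phi ε (-j) (tau ε (sz ε' j)) = C (if 0 ≤ j then c j.toNat else 0) := by
  by_cases hj : 0 ≤ j
  · obtain ⟨n, rfl⟩ := Int.eq_ofNat_of_zero_le hj
    unfold sz
    rw [if_pos hj, if_pos hj, Int.toNat_natCast]
    obtain ⟨d1, d2⟩ := tau_ss ε ε' c h0 hc n
    rw [phi_low ε n _ d1, d2]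
  · unfold sz
    rw [if_neg hj, if_neg hj, map_zero, map_zero, C_0]

/-- the first sequence -/
noncomputable def c1 (n : ℕ) : ℂ := if n = 0 ∨ n = 2 then 1 else if n = 1 then -2 else 0

theorem sum_c1 (j : ℕ) : ∑ i ∈ Finset.range (j + 3), c1 i = 0 := by
  induction j with
  | zero =>
    rw [Finset.sum_range_succ, Finset.sum_range_succ, Finset.sum_range_succ, Finset.sum_range_zero]
    unfold c1
    norm_num
  | succ j ih =>
    rw [show j + 1 + 3 = (j + 3) + 1 by omega, Finset.sum_range_succ, ih]
    unfold c1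
    rw [if_neg (by omega), if_neg (by omega)]
    norm_num

theorem con : S_CON := by
  constructor
  · intro ε hε j
    have hε2 : ε * ε = 1 := by rcases hε with h | h <;> rw [h] <;> norm_num
    have hrec : ∀ j : ℕ, c1 (j + 1) = -2 * ε * ε / ((j : ℂ) + 1) *
        ∑ i ∈ Finset.range (j + 1), c1 (j - i) := by
      intro j
      rw [show -2 * ε * ε = -2 * (ε * ε) by ring, hε2, mul_one]
      rw [Finset.sum_flip (fun i => c1 i)]
      rcases j with _ | _ | j
      · simp [c1]
      · rw [Finset.sum_range_succ, Finset.sum_range_succ, Finset.sum_range_zero]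
        unfold c1
        norm_num
      · rw [sum_c1, mul_zero]
        unfold c1
        rw [if_neg (by omega), if_neg (by omega)]
    rw [phi_tau ε ε c1 (by simp [c1]) hrec j]
    congr 1
    by_cases hj : 0 ≤ j
    · rw [if_pos hj]
      unfold c1
      have e1 : (j.toNat = 0 ∨ j.toNat = 2) ↔ (j = 0 ∨ j = 2) := by omega
      have e2 : (j.toNat = 1) ↔ (j = 1) := by omega
      simp only [e1, e2]
    · rw [if_neg hj, if_neg (by omega), if_neg (by omega)]
  · intro ε hε j
    have hε2 : ε * ε = 1 := by rcases hε with h | h <;> rw [h] <;> norm_num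
    have hrec : ∀ j : ℕ, (((j + 1 : ℕ) : ℂ) + 1) = -2 * ε * (-ε) / ((j : ℂ) + 1) *
        ∑ i ∈ Finset.range (j + 1), (((j - i : ℕ) : ℂ) + 1) := by
      intro j
      rw [show -2 * ε * (-ε) = 2 * (ε * ε) by ring, hε2, mul_one]
      rw [Finset.sum_flip (fun i => ((i : ℂ) + 1))]
      have h1 : ∀ n : ℕ, ∑ i ∈ Finset.range (n + 1), ((i : ℂ) + 1) = (n + 1) * (n + 2) / 2 := by
        intro n
        induction n with
        | zero => norm_num
        | succ n ih =>
          rw [Finset.sum_range_succ, ih]
          push_cast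
          ring
      rw [h1]
      have h2 : ((j : ℂ) + 1) ≠ 0 := by
        have : ((j + 1 : ℕ) : ℂ) ≠ 0 := by exact_mod_cast Nat.succ_ne_zero j
        exact_mod_cast this
      push_cast
      field_simp
      ring
    rw [phi_tau ε (-ε) (fun n => (n : ℂ) + 1) (by simp) hrec j]
    congr 1
    by_cases hj : 0 ≤ j
    · rw [if_pos hj, if_pos hj]
      obtain ⟨n, rfl⟩ := Int.eq_ofNat_of_zero_le hj
      simp
    · rw [if_neg hj, if_neg hj]

end Pool.Agent.W605.VO
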